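import Pool.Agent.helper82.DP.SE2
import Pool.Agent.helper64.TP.SpecE
import Pool.Agent.helper64.TP.Basic
import Pool.Agent.helper64.TP.Conv
/-!
# Module SE2 of project dp: marked arms at separated points and standard arms
-/

namespace TP

open DP

open MeasureTheory

/-- All chains of colour `k` with index below `m` are full. -/
def SE2_U (k : Bool) (ℓ : ℕ) (gs : ℕ → List V) (m : ℕ) : Set (V → Bool) :=
  Ev fun c => ∀ l < m, kol l = k → Full c k ℓ (gs l)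

theorem SE2_U_succ_pos {k : Bool} {ℓ : ℕ} {gs : ℕ → List V} {m : ℕ} (h : kol m = k) :
    SE2_U k ℓ gs (m + 1) = SE2_U k ℓ gs m ∩ Ev fun c => Full c k ℓ (gs m) := by
  ext b
  constructor
  · intro hb
    exact ⟨fun l hl => hb l (by omega), hb m (by omega) h⟩
  · rintro ⟨h1, h2⟩ l hl hk
    rcases Nat.lt_succ_iff_lt_or_eq.1 hl with h3 | h3
    · exact h1 l h3 hk
    · rw [h3]; exact h2

theorem SE2_U_succ_neg {k : Bool} {ℓ : ℕ} {gs : ℕ → List V} {m : ℕ} (h : kol m ≠ k) :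
    SE2_U k ℓ gs (m + 1) = SE2_U k ℓ gs m := by
  ext b
  constructor
  · intro hb l hl
    exact hb l (by omega)
  · intro h1 l hl hk
    rcases Nat.lt_succ_iff_lt_or_eq.1 hl with h3 | h3
    · exact h1 l h3 hk
    · rw [h3] at hk; exact absurd hk h

theorem SE2_U_zero {k : Bool} {ℓ : ℕ} {gs : ℕ → List V} : SE2_U k ℓ gs 0 = Set.univ := by
  ext b
  constructor
  · intro _
    trivial
  · intro _ l hl
    omega

theorem SE2_U_loc (hCH4 : CH4_stmt) (k : Bool) (ℓ : ℕ) (gs : ℕ → List V) (j : ℕ) :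
    ∀ m ≤ j, Loc (SE2_U k ℓ gs m) (SE2_S k ℓ gs j) := by
  intro m
  induction m with
  | zero => intro _; rw [SE2_U_zero]; exact Loc.univ _
  | succ m ih =>
    intro hm
    by_cases h : kol m = k
    · rw [SE2_U_succ_pos h]
      refine Loc.mono ((ih (by omega)).inter (hCH4 ℓ k (gs m)).1) ?_
      rintro v (hv | hv)
      · exact hv
      · exact ⟨m, by omega, h, hv⟩
    · rw [SE2_U_succ_neg h]
      exact ih (by omega)

theorem SE2_U_mon (hCH4 : CH4_stmt) (k : Bool) (ℓ : ℕ) (gs : ℕ → List V) (m : ℕ) :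
    Mon k (SE2_U k ℓ gs m) := fun b b' hb hall l hl hk =>
  (hCH4 ℓ k (gs l)).2 b b' hb (hall l hl hk)

theorem SE2_U_prob (hfkg : Bfkg_stmt) (hCH3 : CH3_stmt) (hCH4 : CH4_stmt) (c₀ : ℝ) (h0 : 0 ≤ c₀)
    (h1 : c₀ ≤ 1) (k : Bool) (ℓ : ℕ) (ρ : V → ℝ) (hρ : Profile ρ)
    (hC : ∀ g, c₀ ≤ Pr (Ev fun c => ∃ S, Loop c k g ℓ S)) (gs : ℕ → List V) (j K : ℕ)
    (hK : ∀ l < j, (gs l).length ≤ K) :
    ∀ m ≤ j, c₀ ^ (2 * K * m) ≤ Q ρ (SE2_U k ℓ gs m) (SE2_U k ℓ gs m) := by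
  intro m
  induction m with
  | zero =>
    intro _
    rw [SE2_U_zero, SE2_Q_univ]
    simp
  | succ m ih =>
    intro hm
    have ihm := ih (by omega)
    by_cases h : kol m = k
    · rw [SE2_U_succ_pos h]
      have h2 := hCH3 c₀ ℓ k ρ (gs m) hρ h0 hC
      have h3 : c₀ ^ (2 * K) ≤ c₀ ^ (2 * (gs m).length) :=
        pow_le_pow_of_le_one h0 h1 (by have := hK m (by omega); omega)
      have h4 : c₀ ^ (2 * K * (m + 1)) = c₀ ^ (2 * K * m) * c₀ ^ (2 * K) := by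
        rw [← pow_add]; congr 1
      rw [h4]
      refine le_trans ?_ (hfkg ρ k (SE2_U k ℓ gs m) (Ev fun c => Full c k ℓ (gs m)) Set.univ
        ((SE2_U_loc hCH4 k ℓ gs m m le_rfl).mono (Set.subset_univ _))
        ((hCH4 ℓ k (gs m)).1.mono (Set.subset_univ _)) (SE2_U_mon hCH4 k ℓ gs m)
        (hCH4 ℓ k (gs m)).2)
      exact mul_le_mul ihm (h3.trans h2) (pow_nonneg h0 _) (le_trans (pow_nonneg h0 _) ihm)
    · rw [SE2_U_succ_neg h]
      refine le_trans ?_ ihm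
      exact pow_le_pow_of_le_one h0 h1 (Nat.mul_le_mul_left _ (by omega))

/-- Enlarging the set: only the bricks matter. -/
theorem SE2_Loc_br {F : Set (V → Bool)} {A A' : Set V} (h : Loc F A)
    (hA : ∀ v ∈ A, ∃ w ∈ A', br w = br v) : Loc F A' := by
  refine Loc.of_coin h.coin ?_
  rintro _ ⟨v, hv, rfl⟩
  obtain ⟨w, hw, e⟩ := hA v hv
  exact ⟨w, hw, e⟩

/-- Routes with thickened regions (`RT` of project dp with one more unit of space). -/
theorem SE2_RT (hRTA : RTA_stmt) (hRTB : RTB_stmt) (d e : ℕ) (hde : d ≤ e) :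
    ∃ h K i₁ : ℕ, e + 4 ≤ h ∧ h ≤ i₁ ∧ ∀ (j : ℕ) (s : Bool) (x : V) (i : ℕ)
    (y : ℕ → V), j = 2 ∨ j = 4 → i₁ ≤ i → (∀ l < j, y l ∈ bd x (2 ^ i)) → Ord j x (2 ^ i) y →
    (∀ l < j, ∀ l' < j, l ≠ l' → 2 ^ (i - d) ≤ sd (y l) (y l')) →
      ∃ (π : ℕ → ℕ) (gs : ℕ → List V),
        ((∀ l < j, l % 2 = 0 → π l = l) ∨ (∀ l < j, l % 2 = 0 → π l = (l + 2) % j)) ∧
        ((∀ l < j, l % 2 = 1 → π l = l) ∨ (∀ l < j, l % 2 = 1 → π l = (l + 2) % j)) ∧
        ∀ l < j, Chn (2 ^ (i - h)) (gs l) ∧ (gs l).head? = some (y l) ∧ (gs l).length ≤ K ∧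
          (∃ (g : V) (r : ℕ), (gs l).getLast? = some g ∧ sd (zpt x r (π l)) g ≤ 2 ^ (i - h) ∧
            (if s = true then nx s (2 ^ i) + 2 ^ (i - h) ≤ r ∧ r ≤ 4 * 2 ^ i
              else 2 ^ i / 4 ≤ r ∧ r + 2 ^ (i - h) ≤ nx s (2 ^ i))) ∧
          (∀ g ∈ gs l, ∀ v, sd g v ≤ 3 * 2 ^ (i - h) → v ∈ HS s x (2 ^ i) →
            sd (y l) v ≤ 2 ^ (i - e)) ∧
          (∀ g ∈ gs l, ∀ v, sd g v ≤ 3 * 2 ^ (i - h) → v ∈ bd x (nx s (2 ^ i)) →
            sd (zpt x (nx s (2 ^ i)) (π l)) v ≤ nx s (2 ^ i) / 64) ∧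
          ∀ l' < j, l' % 2 ≠ l % 2 →
            (∀ g ∈ gs l, ∀ v, sd g v ≤ 3 * 2 ^ (i - h) →
              nx s (2 ^ i) / 8 < sd (zpt x (nx s (2 ^ i)) (π l')) v) ∧
            ∀ v ∈ reg (2 ^ (i - h)) (gs l), ∀ w ∈ reg (2 ^ (i - h)) (gs l'), 2 ≤ sd v w := by
  classical
  obtain ⟨h, T, i₁, h1, h2, H⟩ := hRTB d e hde
  refine ⟨h, 2 * T + 1, i₁, h1, h2, ?_⟩
  intro j s x i y hj hi hy hord hsep
  obtain ⟨π, f, p0, p1, hf⟩ := H j s x i y hj hi hy hord hsep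
  have hl1 : 1 ≤ 2 ^ (i - h) := Nat.one_le_two_pow
  have key : ∀ l, ∃ gs : List V, l < j → (Chn (2 ^ (i - h)) gs ∧ gs.head? = some (f l 0) ∧
      gs.length ≤ 2 * T + 1 ∧ (∃ g, gs.getLast? = some g ∧ sd (f l T) g ≤ 2 ^ (i - h)) ∧
      ∀ g ∈ gs, ∃ t ≤ T, sd (f l t) g ≤ 2 * 2 ^ (i - h)) := by
    intro l
    by_cases hl : l < j
    · obtain ⟨gs, hgs⟩ := hRTA (2 ^ (i - h)) T (f l) hl1 (hf l hl).2.1
      exact ⟨gs, fun _ => hgs⟩
    · exact ⟨[], fun h => absurd h hl⟩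
  choose gs hgs using key
  have hreg : ∀ l < j, ∀ v g, g ∈ gs l → sd g v ≤ 3 * 2 ^ (i - h) → ∃ t ≤ T,
      sd (f l t) v ≤ 5 * 2 ^ (i - h) := by
    intro l hl v g hg hgv
    obtain ⟨t, ht, hd⟩ := (hgs l hl).2.2.2.2 g hg
    refine ⟨t, ht, ?_⟩
    have := sd_triangle (f l t) g v
    omega
  have hreg' : ∀ l < j, ∀ v ∈ reg (2 ^ (i - h)) (gs l), ∃ t ≤ T,
      sd (f l t) v < 5 * 2 ^ (i - h) := by
    rintro l hl v ⟨g, hg, hgv⟩
    obtain ⟨t, ht, hd⟩ := (hgs l hl).2.2.2.2 g hg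
    refine ⟨t, ht, ?_⟩
    have := sd_triangle (f l t) g v
    omega
  refine ⟨π, gs, p0, p1, ?_⟩
  intro l hl
  obtain ⟨a1, a2, a3, ⟨g, a4, a5⟩, a6⟩ := hgs l hl
  obtain ⟨b1, b2, ⟨r, b3, b4⟩, b5⟩ := hf l hl
  refine ⟨a1, by rw [a2, b1], a3, ⟨g, r, a4, by rw [← b3]; exact a5, b4⟩, ?_, ?_, ?_⟩
  · intro g hg v hv hvH
    obtain ⟨t, ht, hd⟩ := hreg l hl v g hg hv
    exact ((b5 t ht).1 v hd).1 hvH
  · intro g hg v hv hvb
    obtain ⟨t, ht, hd⟩ := hreg l hl v g hg hv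
    exact ((b5 t ht).1 v hd).2.1 hvb
  · intro l' hl' hne
    refine ⟨?_, ?_⟩
    · intro g hg v hv
      obtain ⟨t, ht, hd⟩ := hreg l hl v g hg hv
      exact ((b5 t ht).1 v hd).2.2 l' hl' hne
    · intro v hv w hw
      obtain ⟨t, ht, hd⟩ := hreg' l hl v hv
      obtain ⟨t', ht', hd'⟩ := hreg' l' hl' w hw
      have h3 := (b5 t ht).2 l' hl' hne t' ht'
      have h4 := sd_triangle (f l t) v (f l' t')
      have h5 := sd_triangle v w (f l' t')
      rw [sd_comm w] at h5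
      omega

theorem SE2 (hRTA : RTA_stmt) (hRTB : RTB_stmt) (hMI : MI_stmt) (hgen : Bgen_stmt)
    (hfkg : Bfkg_stmt) (hmono : Bmono_stmt) (hCH3 : CH3_stmt) (hCH4 : CH4_stmt) (hC1 : C1_stmt) :
    SE2_stmt := by
  obtain ⟨c₀, hc₀, ℓ₀, hℓ₀, hC⟩ := hC1
  have hc1 : c₀ ≤ 1 := by
    refine le_trans (hC true (0, 0) ℓ₀ le_rfl) ?_
    have : IsProbabilityMeasure P1 := by
      unfold P1
      infer_instance
    exact measureReal_le_one
  intro d e hde he4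
  obtain ⟨h, K, i₁, heh, hhi, hR⟩ := SE2_RT hRTA hRTB d e hde
  refine ⟨h, heh, 1 / (c₀ ^ (2 * K * 4) * c₀ ^ (2 * K * 4)), by positivity, i₁ + h + ℓ₀, by omega, ?_⟩
  intro j s ρ x D X i y hj hρ hx hi hD hX hy hOrd hsep
  obtain ⟨π, gs, hπ0, hπ1, hgs⟩ := hR j s x i y hj (by omega) hy hOrd hsep
  have hj4 : j ≤ 4 := by omega
  set ℓ := 2 ^ (i - h) with hℓ
  set n := 2 ^ i with hn
  set A := 2 ^ (i - e) with hA
  have hℓ₀' : ℓ₀ ≤ ℓ := by
    have h1 : ℓ₀ < 2 ^ ℓ₀ := Nat.lt_two_pow_self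
    have h2 : 2 ^ ℓ₀ ≤ 2 ^ (i - h) := Nat.pow_le_pow_right (by norm_num) (by omega)
    omega
  have hnA : 16 * A ≤ n := by
    have h1 : 16 * 2 ^ (i - e) = 2 ^ (i - e + 4) := by
      rw [pow_add]; ring
    rw [hA, h1, hn]
    exact Nat.pow_le_pow_right (by norm_num) (by omega)
  have hApos : 1 ≤ A := Nat.one_le_two_pow
  -- brick mates of the regions are in the thickened regions
  have hmate : ∀ l, ∀ w ∈ reg ℓ (gs l), ∀ v, br v = br w → ∃ g ∈ gs l, sd g v ≤ 3 * ℓ := by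
    rintro l w ⟨g, hg, hgw⟩ v hvw
    refine ⟨g, hg, ?_⟩
    have h1 := br_eq_sd hvw
    have h2 := sd_triangle g w v
    rw [sd_comm w] at h2
    omega
  -- the thickened regions of the chains are away from the far data
  have hregHS : ∀ l < j, ∀ w ∈ reg ℓ (gs l), ∀ v, br v = br w → v ∈ HS s x n → sd (y l) v ≤ A := by
    intro l hl w hw v hvw hvH
    obtain ⟨g, hg, hgv⟩ := hmate l w hw v hvw
    exact (hgs l hl).2.2.2.2.1 g hg v hgv hvH
  have hnear : ∀ l < j, ∀ v, sd (y l) v ≤ A → n ≤ sd x v + A ∧ sd x v ≤ n + A := by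
    intro l hl v hv
    have h1 : sd x (y l) = n := hy l hl
    have h2 := sd_triangle x (y l) v
    have h3 := sd_triangle x v (y l)
    rw [sd_comm v (y l)] at h3
    omega
  have hfar : ∀ l < j, ∀ w ∈ reg ℓ (gs l), ∀ v, br v = br w →
      ¬ (if s = true then sd x v ≤ 2 ^ (i - 1) else 2 ^ (i + 1) ≤ sd x v) := by
    intro l hl w hw v hvw hcon
    have hi1 : 2 * 2 ^ (i - 1) = n := by
      rw [hn, ← pow_succ']
      congr 1
      omega
    have hi2 : 2 ^ (i + 1) = 2 * n := by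
      rw [hn, pow_succ]; ring
    cases s with
    | true =>
      simp only [if_true] at hcon
      have h1 : v ∈ HS true x n := by
        show sd x v ≤ n
        omega
      have h2 := hnear l hl v (hregHS l hl w hw v hvw h1)
      omega
    | false =>
      simp only [Bool.false_eq_true, if_false] at hcon
      rw [hi2] at hcon
      have h1 : v ∈ HS false x n := by
        show n ≤ sd x v
        omega
      have h2 := hnear l hl v (hregHS l hl w hw v hvw h1)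
      omega
  have hR_away : ∀ k, ∀ v ∈ SE2_R j s x n D y A k, ∀ w ∈ SE2_S (!k) ℓ gs j, br v ≠ br w := by
    rintro k v ⟨hv1, hv2⟩ w ⟨l, hl, hk, hw⟩ hvw
    refine hv2 (Or.inr ⟨l, hl, ?_, hregHS l hl w hw v hvw hv1⟩)
    rw [hk]
    cases k <;> simp
  set Sp := SE2_S true ℓ gs j with hSp
  set Sm := SE2_S false ℓ gs j with hSm
  set S : Set V := {v | ∀ w ∈ Sp ∪ Sm, br v ≠ br w} with hS
  have hXS : Loc X S := by
    unfold Extra at hX
    cases s with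
    | true =>
      simp only [if_true] at hX hfar
      refine hX.mono ?_
      rintro v hv w (⟨l, hl, _, hw⟩ | ⟨l, hl, _, hw⟩) hvw
      · exact hfar l hl w hw v hvw hv
      · exact hfar l hl w hw v hvw hv
    | false =>
      simp only [Bool.false_eq_true, if_false] at hX hfar
      refine hX.mono ?_
      rintro v hv w (⟨l, hl, _, hw⟩ | ⟨l, hl, _, hw⟩) hvw
      · exact hfar l hl w hw v hvw hv
      · exact hfar l hl w hw v hvw hv
  have hMrkloc : ∀ k, Loc (Ev fun c => MrkC c j s x n D y ℓ A k) (SE2_R j s x n D y A k) :=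
    fun k => Loc.ev (SE2_R_finite hD) fun c c' hcc => SE2_MrkC_congr hcc
  have hMrkmon : ∀ k, Mon k (Ev fun c => MrkC c j s x n D y ℓ A k) := fun k =>
    Mon.ev fun c c' hcc => SE2_MrkC_mono hcc
  have hSpm : BDis Sp Sm := by
    refine BDis.of_sd ?_
    rintro v ⟨l, hl, hk, hv⟩ w ⟨l', hl', hk', hw⟩
    have h1 : l' % 2 ≠ l % 2 := SE2_kol_parity (by rw [hk, hk']; simp)
    exact ((hgs l hl).2.2.2.2.2.2 l' hl' h1).2 v hv w hw
  have hEp : Loc (Ev fun c => MrkC c j s x n D y ℓ A true) (S ∪ Sp) := by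
    refine SE2_Loc_br (hMrkloc true) ?_
    intro v hv
    by_cases h1 : ∃ w ∈ Sp, br w = br v
    · obtain ⟨w, hw, e1⟩ := h1
      exact ⟨w, Or.inr hw, e1⟩
    · refine ⟨v, Or.inl ?_, rfl⟩
      rintro w (hw | hw) e1
      · exact h1 ⟨w, hw, e1.symm⟩
      · exact hR_away true v hv w hw e1
  have hEm : Loc (Ev fun c => MrkC c j s x n D y ℓ A false) (S ∪ Sm) := by
    refine SE2_Loc_br (hMrkloc false) ?_
    intro v hv
    by_cases h1 : ∃ w ∈ Sm, br w = br v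
    · obtain ⟨w, hw, e1⟩ := h1
      exact ⟨w, Or.inr hw, e1⟩
    · refine ⟨v, Or.inl ?_, rfl⟩
      rintro w (hw | hw) e1
      · exact hR_away false v hv w hw e1
      · exact h1 ⟨w, hw, e1.symm⟩
  have hG := hgen ρ X X (Ev fun c => MrkC c j s x n D y ℓ A true)
    (Ev fun c => MrkC c j s x n D y ℓ A false) (SE2_U true ℓ gs j) (SE2_U false ℓ gs j) S Sp Sm
    (fun v hv w hw => hv w (Or.inl hw)) (fun v hv w hw => hv w (Or.inr hw)) hSpm hXS hXS hEp hEm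
    (SE2_U_loc hCH4 true ℓ gs j j le_rfl) (SE2_U_loc hCH4 false ℓ gs j j le_rfl)
    (hMrkmon true) (hMrkmon false) (SE2_U_mon hCH4 true ℓ gs j)
    (SE2_U_mon hCH4 false ℓ gs j)
  have hKl : ∀ l < j, (gs l).length ≤ K := fun l hl => (hgs l hl).2.2.1
  have hq : ∀ k, c₀ ^ (2 * K * 4) ≤ Q ρ (SE2_U k ℓ gs j) (SE2_U k ℓ gs j) := fun k =>
    le_trans (pow_le_pow_of_le_one hc₀.le hc1 (Nat.mul_le_mul_left _ hj4))
      (SE2_U_prob hfkg hCH3 hCH4 c₀ hc₀.le hc1 k ℓ ρ hρ (fun g => hC k g ℓ hℓ₀') gs j K hKl j le_rfl)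
  have hsub : X ∩ ((Ev fun c => MrkC c j s x n D y ℓ A true) ∩
      (Ev fun c => MrkC c j s x n D y ℓ A false) ∩ (SE2_U true ℓ gs j ∩ SE2_U false ℓ gs j)) ⊆
        X ∩ Ev fun c => Std c j s x (nx s n) D := by
    rintro b ⟨h1, ⟨h2, h4⟩, h5, h6⟩
    refine ⟨h1, ?_⟩
    refine hMI (col b) j s x i h e D y π gs hj hx heh (by omega) he4 hD hy hπ0 hπ1 ?_ ⟨h2, h4⟩ ?_
    · intro l hl
      obtain ⟨a1, a2, a3, ⟨g, r, a4, a5, a6⟩, a7, a8, a9⟩ := hgs l hl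
      refine ⟨a1, a2, ⟨g, r, a4, a5, ?_⟩, ?_, ?_, ?_⟩
      · cases s with
        | true =>
          simp only [if_true] at a6 ⊢
          exact a6.1
        | false =>
          simp only [Bool.false_eq_true, if_false] at a6 ⊢
          exact a6
      · rintro v ⟨g', hg', hv⟩
        exact a7 g' hg' v hv.le
      · rintro v ⟨g', hg', hv⟩
        exact a8 g' hg' v hv.le
      · rintro l' hl' hne v ⟨g', hg', hv⟩
        exact (a9 l' hl' hne).1 g' hg' v hv.le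
    · intro l hl
      cases hk : kol l with
      | true => exact h5 l hl hk
      | false => exact h6 l hl hk
  have hM := hmono ρ _ _ _ _ hsub hsub
  have hset : X ∩ Ev (fun c => Mrk c j s x n D y ℓ A) =
      X ∩ ((Ev fun c => MrkC c j s x n D y ℓ A true) ∩
        (Ev fun c => MrkC c j s x n D y ℓ A false)) := rfl
  rw [hset]
  have hcp : 0 < c₀ ^ (2 * K * 4) := by positivity
  have hQ0 : 0 ≤ Q ρ (X ∩ ((Ev fun c => MrkC c j s x n D y ℓ A true) ∩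
      (Ev fun c => MrkC c j s x n D y ℓ A false)))
      (X ∩ ((Ev fun c => MrkC c j s x n D y ℓ A true) ∩
      (Ev fun c => MrkC c j s x n D y ℓ A false))) := measureReal_nonneg
  have hprod : c₀ ^ (2 * K * 4) * c₀ ^ (2 * K * 4) ≤
      Q ρ (SE2_U true ℓ gs j) (SE2_U true ℓ gs j) *
        Q ρ (SE2_U false ℓ gs j) (SE2_U false ℓ gs j) :=
    mul_le_mul (hq true) (hq false) hcp.le (hcp.le.trans (hq true))
  rw [one_div_mul_eq_div, le_div_iff₀ (by positivity)]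
  exact le_trans (mul_le_mul_of_nonneg_left hprod hQ0) (hG.trans hM)

end TP
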